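import Pool.Agent.Fix85.Real

/-! The decimal encoding of the prime factorization has at most 32000000 x^(2/3) (log x)^3 fixed
points up to x. -/

namespace Pool.Agent.Results.MP_fea6d2_nt.FewFixedPoints

open Pool.Agent.Fix85

/-- the encoding of 2, 3 and 6, as in the problem -/
theorem code_small : code 2 = 21 ∧ code 3 = 31 ∧ code 6 = 2131 := by
  have h2 : code 2 = 21 := by
    have h := code_prime_pow (p := 2) (e := 1) Nat.prime_two le_rfl
    rw [pow_one] at h
    rw [h]
    simp [len]
  have h3 : code 3 = 31 := by
    have h := code_prime_pow (p := 3) (e := 1) Nat.prime_three le_rfl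
    rw [pow_one] at h
    rw [h]
    simp [len]
  refine ⟨h2, h3, ?_⟩
  have hL : L 3 = 2 := by
    have h := L_prime_pow (p := 3) (e := 1) Nat.prime_three le_rfl
    rw [pow_one] at h
    rw [h]
    simp [len]
  have hs : Sep 2 3 := by
    intro p hp q hq
    rw [Nat.Prime.primeFactors Nat.prime_two, Finset.mem_singleton] at hp
    rw [Nat.Prime.primeFactors Nat.prime_three, Finset.mem_singleton] at hq
    omega
  have h := code_mul (m := 2) (w := 3) (by norm_num) (by norm_num) hs
  norm_num at h
  rw [h, h2, h3, hL]
  norm_num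

/-- For every integer `x ≥ 2` there are at most `32000000 x^(2/3) (log x)^3` integers `n` with
`2 ≤ n ≤ x` and `a(n) = n`. -/
theorem result (x : ℕ) (hx : 2 ≤ x) :
    (((Finset.Icc 2 x).filter (fun n => code n = n)).card : ℝ) ≤
      32000000 * (x : ℝ) ^ (2 / 3 : ℝ) * Real.log x ^ 3 :=
  count_real x hx

end Pool.Agent.Results.MP_fea6d2_nt.FewFixedPoints
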