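import Pool.Agent.Fix85.Low

/-! A fixed point of the decimal encoding of the prime factorization has a large, but not too
large, quotient `n / rad n`; in particular it is not squarefree. Nor is it a prime power. -/

namespace Pool.Agent.Results.MP_fea6d2_nt.PowerfulPart

open Pool.Agent.Fix85

/-- If `n ≥ 2` and `a(n) = n`, with `ω` distinct primes `p` dividing `n` and exponents `e_p`, then
`10^ω rad(n) < 10 n` and `n < ∏ 100 p e_p`; `n` is neither squarefree nor a prime power, and some
prime `p` dividing `n` has `p^(e_p - 1) < 100 e_p`. -/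
theorem result (n : ℕ) (hn : 2 ≤ n) (h : code n = n) :
    10 ^ n.primeFactors.card * ∏ p ∈ n.primeFactors, p < 10 * n ∧
    n < ∏ p ∈ n.primeFactors, (100 * p * n.factorization p) ∧
    ¬ Squarefree n ∧ ¬ IsPrimePow n ∧
    ∃ p ∈ n.primeFactors, p ^ (n.factorization p - 1) < 100 * n.factorization p :=
  ⟨ratio hn h, upper h, not_squarefree hn h, not_primePow h, exists_small hn h⟩

end Pool.Agent.Results.MP_fea6d2_nt.PowerfulPart
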